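import Pool.Agent.H29.Alg

set_option autoImplicit false

namespace Pool.Agent.Results.MP_30394b_an.StrongAlg

open Filter Topology Set
open Pool.Agent.H29.Alg

/-- `f` is infinitely differentiable on `[0,1]` (one-sided at the endpoints) and its Taylor series
at every point of `[0,1]` has radius of convergence zero. -/
def PS {𝕜 : Type} [RCLike 𝕜] (f : C(Icc (0 : ℝ) 1, 𝕜)) : Prop :=
  ContDiffOn ℝ (⊤ : ℕ∞) (IccExtend zero_le_one f) (Icc 0 1) ∧
    ∀ x ∈ Icc (0 : ℝ) 1, (FormalMultilinearSeries.ofScalars 𝕜 (fun n =>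
      iteratedDerivWithin n (IccExtend zero_le_one f) (Icc 0 1) x / (n.factorial : 𝕜))).radius = 0

theorem result (𝕜 : Type) [RCLike 𝕜] :
    ∃ S : Set C(Icc (0 : ℝ) 1, 𝕜), Cardinal.mk S = Cardinal.continuum ∧
      (∀ (N : ℕ) (f : Fin N → C(Icc (0 : ℝ) 1, 𝕜)), Function.Injective f → (∀ i, f i ∈ S) →
        ∀ P : MvPolynomial (Fin N) 𝕜, P ≠ 0 → MvPolynomial.constantCoeff P = 0 →
          MvPolynomial.aeval f P ≠ 0) ∧
      (∀ T : Set C(Icc (0 : ℝ) 1, 𝕜), T ⊂ S →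
        NonUnitalAlgebra.adjoin 𝕜 T ≠ NonUnitalAlgebra.adjoin 𝕜 S) ∧
      ∀ b ∈ NonUnitalAlgebra.adjoin 𝕜 S, b ≠ 0 → PS b := by
  let B := Module.Basis.ofVectorSpace ℚ ℝ
  refine ⟨range (fun i => gen 𝕜 (B i)), ?_, ?_, ?_, ?_⟩
  · exact (Cardinal.mk_range_eq _ ((gen_inj 𝕜).comp B.injective)).trans
      (B.mk_eq_rank''.trans Real.rank_rat_real)
  · intro N f hf hS P hP _ h
    choose k hk using hS
    have hk2 : Function.Injective k := fun i j h => hf (by rw [← hk, ← hk, h])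
    refine hP (alg_ind 𝕜 N (B ∘ k) (B.linearIndependent.comp k hk2) P ?_)
    rw [← h]; congr 2; ext1 i; exact hk i
  · intro T hT he
    obtain ⟨_, ⟨i, rfl⟩, hi⟩ := exists_of_ssubset hT
    have h1 : gen 𝕜 (B i) ∈ NonUnitalAlgebra.adjoin 𝕜 T := by
      rw [he]; exact NonUnitalAlgebra.subset_adjoin 𝕜 ⟨i, rfl⟩
    obtain ⟨Φ, h2, h3⟩ := rep 𝕜 {l | B.coord i l = 0} (fun a ha b hb => by
      simp only [mem_setOf_eq, map_add] at ha hb ⊢; rw [ha, hb, add_zero]) T (fun t ht => by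
        obtain ⟨j, rfl⟩ := hT.1 ht
        refine ⟨B j, ?_, rfl⟩
        have : j ≠ i := by rintro rfl; exact hi ht
        simp [this]) _ h1
    have h4 : Φ - E 𝕜 (B i) = 0 := vanish 𝕜 _
      (fun s => (span_ana 𝕜 _ Φ h2 s).sub (E_ana 𝕜 _ s)) fun x hx =>
        sub_eq_zero.2 (h3 ⟨x, hx⟩).symm
    rw [sub_eq_zero.1 h4] at h2
    exact (E_ind 𝕜).notMem_span_image (by simp) h2
  · intro b hb hne
    obtain ⟨Φ, h2, h3⟩ := rep 𝕜 {l | 0 < B.sumCoords l} (fun a ha b hb => by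
      simp only [mem_setOf_eq, map_add] at ha hb ⊢; exact add_pos ha hb) _ (by
        rintro _ ⟨j, rfl⟩
        exact ⟨B j, by simp, rfl⟩) b hb
    have ha := span_ana 𝕜 _ Φ h2
    have hs : ContDiff ℝ (⊤ : ℕ∞) fun t => Φ (g t) :=
      (contDiff_iff_contDiffAt.2 fun s => (ha s).contDiffAt).comp g_smooth
    have he : EqOn (IccExtend zero_le_one b) (fun t => Φ (g t)) (Icc 0 1) := fun x hx => by
      rw [IccExtend_of_mem _ _ hx, h3]
    have hn : ∃ s, Φ s ≠ Φ 0 := by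
      by_contra h4
      push Not at h4
      have h5 : Φ 0 ≠ 0 := fun h => hne (by ext x; rw [h3, h4, h]; rfl)
      have h6 : (Φ 0)⁻¹ • Φ = E 𝕜 0 := by
        ext s; simp [E, h4 s, h5]
      exact (E_ind 𝕜).notMem_span_image (x := 0) (by simp) (h6 ▸ Submodule.smul_mem _ _ h2)
    refine ⟨hs.contDiffOn.congr he, fun x hx => ?_⟩
    rw [← rad_zero 𝕜 Φ ha hn x]
    congr 3 with n
    rw [iteratedDerivWithin_congr he hx, iteratedDerivWithin_eq_iteratedDeriv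
      (uniqueDiffOn_Icc one_pos) (hs.contDiffAt.of_le (by exact_mod_cast le_top)) hx]

end Pool.Agent.Results.MP_30394b_an.StrongAlg
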